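import Pool.Agent.Q331.EA.Model

/-!
# Counting jobs and the pointwise inequality
-/

namespace Q331.EA

open Finset

section counts

variable {n : ℕ}

open Classical in
/-- big jobs on machine `false` -/
noncomputable def ca (p : Fin n → ℝ) (x : Fin n → Bool) : ℤ :=
  ∑ i, if x i = false ∧ p i = 1 then 1 else 0

open Classical in
/-- small jobs on machine `false` -/
noncomputable def cb (p : Fin n → ℝ) (x : Fin n → Bool) : ℤ :=
  ∑ i, if x i = false ∧ p i ≠ 1 then 1 else 0

open Classical in
/-- big jobs on machine `true` -/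
noncomputable def cc (p : Fin n → ℝ) (x : Fin n → Bool) : ℤ :=
  ∑ i, if x i = true ∧ p i = 1 then 1 else 0

open Classical in
/-- small jobs on machine `true` -/
noncomputable def ce (p : Fin n → ℝ) (x : Fin n → Bool) : ℤ :=
  ∑ i, if x i = true ∧ p i ≠ 1 then 1 else 0

open Classical in
/-- flipped big jobs of machine `false` -/
noncomputable def ka (p : Fin n → ℝ) (x y : Fin n → Bool) : ℤ :=
  ∑ i, if (x i = false ∧ p i = 1) ∧ y i ≠ x i then 1 else 0

open Classical in
/-- flipped small jobs of machine `false` -/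
noncomputable def kb (p : Fin n → ℝ) (x y : Fin n → Bool) : ℤ :=
  ∑ i, if (x i = false ∧ p i ≠ 1) ∧ y i ≠ x i then 1 else 0

open Classical in
/-- flipped big jobs of machine `true` -/
noncomputable def kc (p : Fin n → ℝ) (x y : Fin n → Bool) : ℤ :=
  ∑ i, if (x i = true ∧ p i = 1) ∧ y i ≠ x i then 1 else 0

open Classical in
/-- flipped small jobs of machine `true` -/
noncomputable def ke (p : Fin n → ℝ) (x y : Fin n → Bool) : ℤ :=
  ∑ i, if (x i = true ∧ p i ≠ 1) ∧ y i ≠ x i then 1 else 0

variable (p : Fin n → ℝ) (x y : Fin n → Bool)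

lemma ca_new : ca p y = ca p x - ka p x y + kc p x y := by
  classical
  unfold ca ka kc
  rw [← sum_sub_distrib, ← sum_add_distrib]
  apply sum_congr rfl
  intro i _
  by_cases h : p i = 1 <;> cases hx : x i <;> cases hy : y i <;> simp [h]

lemma cb_new : cb p y = cb p x - kb p x y + ke p x y := by
  classical
  unfold cb kb ke
  rw [← sum_sub_distrib, ← sum_add_distrib]
  apply sum_congr rfl
  intro i _
  by_cases h : p i = 1 <;> cases hx : x i <;> cases hy : y i <;> simp [h]

lemma cc_new : cc p y = cc p x + ka p x y - kc p x y := by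
  classical
  unfold cc ka kc
  rw [← sum_add_distrib, ← sum_sub_distrib]
  apply sum_congr rfl
  intro i _
  by_cases h : p i = 1 <;> cases hx : x i <;> cases hy : y i <;> simp [h]

lemma ce_new : ce p y = ce p x + kb p x y - ke p x y := by
  classical
  unfold ce kb ke
  rw [← sum_add_distrib, ← sum_sub_distrib]
  apply sum_congr rfl
  intro i _
  by_cases h : p i = 1 <;> cases hx : x i <;> cases hy : y i <;> simp [h]

lemma c_total : ca p x + cb p x + cc p x + ce p x = n := by
  classical
  unfold ca cb cc ce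
  rw [← sum_add_distrib, ← sum_add_distrib, ← sum_add_distrib]
  have : ∀ i ∈ (univ : Finset (Fin n)), ((((if x i = false ∧ p i = 1 then (1 : ℤ) else 0) +
      (if x i = false ∧ p i ≠ 1 then 1 else 0)) + (if x i = true ∧ p i = 1 then 1 else 0)) +
      (if x i = true ∧ p i ≠ 1 then 1 else 0)) = 1 := by
    intro i _
    by_cases h : p i = 1 <;> cases hx : x i <;> simp [h]
  rw [sum_congr rfl this]
  simp

lemma sum_ite_nonneg {P : Fin n → Prop} [DecidablePred P] :
    0 ≤ ∑ i, (if P i then (1 : ℤ) else 0) :=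
  sum_nonneg fun i _ => by split_ifs <;> norm_num

lemma ca_nonneg : 0 ≤ ca p x := sum_ite_nonneg
lemma cb_nonneg : 0 ≤ cb p x := sum_ite_nonneg
lemma cc_nonneg : 0 ≤ cc p x := sum_ite_nonneg
lemma ce_nonneg : 0 ≤ ce p x := sum_ite_nonneg
lemma ka_nonneg : 0 ≤ ka p x y := sum_ite_nonneg
lemma kb_nonneg : 0 ≤ kb p x y := sum_ite_nonneg
lemma kc_nonneg : 0 ≤ kc p x y := sum_ite_nonneg
lemma ke_nonneg : 0 ≤ ke p x y := sum_ite_nonneg

lemma kb_le : kb p x y ≤ n := by
  have h1 := cb_new p x y
  have h2 := ce_new p x y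
  have h3 := c_total p x
  have h4 := c_total p y
  have a1 := cb_nonneg p y
  have : kb p x y ≤ cb p x := by
    classical
    unfold kb cb
    apply sum_le_sum
    intro i _
    by_cases h : (x i = false ∧ p i ≠ 1)
    · rw [if_pos h]; split_ifs <;> norm_num
    · rw [if_neg (fun hh => h hh.1), if_neg h]
  have b1 := ca_nonneg p x
  have b2 := cc_nonneg p x
  have b3 := ce_nonneg p x
  linarith

lemma ke_le : ke p x y ≤ n := by
  have h3 := c_total p x
  have : ke p x y ≤ ce p x := by
    classical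
    unfold ke ce
    apply sum_le_sum
    intro i _
    by_cases h : (x i = true ∧ p i ≠ 1)
    · rw [if_pos h]; split_ifs <;> norm_num
    · rw [if_neg (fun hh => h hh.1), if_neg h]
  have b1 := ca_nonneg p x
  have b2 := cc_nonneg p x
  have b3 := cb_nonneg p x
  linarith

variable {p x y}

lemma load_false {δ : ℝ} (hp : ∀ i, p i = 1 ∨ p i = δ) (hδ : δ ≠ 1) :
    load p x false = ca p x + δ * cb p x := by
  classical
  unfold load ca cb
  push_cast
  rw [mul_sum, ← sum_add_distrib]
  apply sum_congr rfl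
  intro i _
  rcases hp i with h | h
  · cases hx : x i <;> simp [h]
  · cases hx : x i <;> simp [h, hδ]

lemma load_true {δ : ℝ} (hp : ∀ i, p i = 1 ∨ p i = δ) (hδ : δ ≠ 1) :
    load p x true = cc p x + δ * ce p x := by
  classical
  unfold load cc ce
  push_cast
  rw [mul_sum, ← sum_add_distrib]
  apply sum_congr rfl
  intro i _
  rcases hp i with h | h
  · cases hx : x i <;> simp [h]
  · cases hx : x i <;> simp [h, hδ]

/-- The makespan is the load of machine `false`. -/
lemma makespan_eq {δ : ℝ} (hp : ∀ i, p i = 1 ∨ p i = δ) (hδ0 : 0 < δ) (hδ : δ * n ≤ 1 / 2)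
    (hn : 0 < n) (hD : 2 ≤ ca p x - cc p x) : makespan p x = ca p x + δ * cb p x ∧
    3 / 2 ≤ load p x false - load p x true := by
  have hδ1 : δ ≠ 1 := by
    rintro rfl
    have : (1 : ℝ) ≤ n := by exact_mod_cast hn
    linarith
  have h1 := load_false (x := x) hp hδ1
  have h2 := load_true (x := x) hp hδ1
  have h3 : ((ce p x : ℤ) : ℝ) ≤ n := by
    have a := c_total p x
    have b1 := ca_nonneg p x
    have b2 := cc_nonneg p x
    have b3 := cb_nonneg p x
    have : ce p x ≤ n := by linarith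
    exact_mod_cast this
  have h4 : (0 : ℝ) ≤ cb p x := by exact_mod_cast cb_nonneg p x
  have h5 : (2 : ℝ) ≤ ca p x - cc p x := by exact_mod_cast hD
  have h6 : δ * ce p x ≤ 1 / 2 := (mul_le_mul_of_nonneg_left h3 hδ0.le).trans hδ
  have h7 : 0 ≤ δ * cb p x := mul_nonneg hδ0.le h4
  constructor
  · unfold makespan
    rw [max_eq_left (by rw [h1, h2]; linarith), h1]
  · rw [h1, h2]; linarith

/-- What acceptance means. -/
lemma acc_facts {δ : ℝ} (hp : ∀ i, p i = 1 ∨ p i = δ) (hδ0 : 0 < δ) (hδ : δ * n ≤ 1 / 2)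
    (hn : 0 < n) (hD : 2 ≤ ca p x - cc p x) (hacc : makespan p y ≤ makespan p x) :
    kc p x y < ka p x y ∨ (ka p x y = kc p x y ∧ ke p x y ≤ kb p x y) := by
  have hδ1 : δ ≠ 1 := by
    rintro rfl
    have : (1 : ℝ) ≤ n := by exact_mod_cast hn
    linarith
  rw [(makespan_eq hp hδ0 hδ hn hD).1] at hacc
  have h1 : load p y false ≤ ca p x + δ * cb p x := (le_max_left _ _).trans hacc
  rw [load_false hp hδ1, ca_new p x y, cb_new p x y] at h1
  push_cast at h1
  have h2 : (kc p x y : ℝ) - ka p x y ≤ δ * (kb p x y - ke p x y) := by linarith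
  have h3 : (kb p x y : ℝ) ≤ n := by exact_mod_cast kb_le p x y
  have h4 : (0 : ℝ) ≤ ke p x y := by exact_mod_cast ke_nonneg p x y
  have h5 : δ * (kb p x y - ke p x y) ≤ 1 / 2 := by
    refine le_trans (mul_le_mul_of_nonneg_left (?_ : (kb p x y - ke p x y : ℝ) ≤ n) hδ0.le) hδ
    linarith
  have h6 : kc p x y < ka p x y + 1 := by
    by_contra hh
    push Not at hh
    have : (ka p x y : ℝ) + 1 ≤ kc p x y := by exact_mod_cast hh
    linarith
  rcases lt_or_eq_of_le (Int.lt_add_one_iff.mp h6) with h7 | h7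
  · exact Or.inl h7
  · right
    refine ⟨h7.symm, ?_⟩
    rw [h7] at h2
    have h8 : 0 ≤ δ * ((kb p x y : ℝ) - ke p x y) := by linarith
    have h9 : (0 : ℝ) ≤ kb p x y - ke p x y := by
      by_contra hh
      push Not at hh
      have := mul_neg_of_pos_of_neg hδ0 hh
      linarith
    have h10 : (ke p x y : ℝ) ≤ kb p x y := by linarith
    exact_mod_cast h10

/-- A flip of exactly one big job of machine `false` and of small jobs of machine `true` is
accepted. -/
lemma acc_main {δ : ℝ} (hp : ∀ i, p i = 1 ∨ p i = δ) (hδ0 : 0 < δ) (hδ : δ * n ≤ 1 / 2)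
    (hn : 0 < n) (hD : 2 ≤ ca p x - cc p x) (h1 : ka p x y = 1) (h2 : kb p x y = 0)
    (h3 : kc p x y = 0) : makespan p y ≤ makespan p x := by
  have hδ1 : δ ≠ 1 := by
    rintro rfl
    have : (1 : ℝ) ≤ n := by exact_mod_cast hn
    linarith
  rw [(makespan_eq hp hδ0 hδ hn hD).1]
  unfold makespan
  rw [load_false hp hδ1, load_true hp hδ1, ca_new p x y, cb_new p x y, cc_new p x y,
    ce_new p x y, h1, h2, h3]
  push_cast
  have h4 : (ke p x y : ℝ) ≤ n := by exact_mod_cast ke_le p x y
  have h5 : (0 : ℝ) ≤ ke p x y := by exact_mod_cast ke_nonneg p x y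
  have h6 : δ * ke p x y ≤ 1 / 2 := (mul_le_mul_of_nonneg_left h4 hδ0.le).trans hδ
  have h7 : (ce p x : ℝ) ≤ n := by
    have a := c_total p x
    have b1 := ca_nonneg p x
    have b2 := cc_nonneg p x
    have b3 := cb_nonneg p x
    have : ce p x ≤ n := by linarith
    exact_mod_cast this
  have h8 : δ * ce p x ≤ 1 / 2 := (mul_le_mul_of_nonneg_left h7 hδ0.le).trans hδ
  have h9 : (2 : ℝ) ≤ ca p x - cc p x := by exact_mod_cast hD
  have h10 : 0 ≤ δ * cb p x := mul_nonneg hδ0.le (by exact_mod_cast cb_nonneg p x)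
  have h11 : 0 ≤ δ * ke p x y := mul_nonneg hδ0.le h5
  apply max_le
  · nlinarith
  · nlinarith

end counts

/-! ### Integer inequalities -/

/-- The error polynomial. -/
def PP (a b c e : ℤ) : ℤ := b + (a * (a - 1) + a * (b + c)) * (a + b + c + e + 1)

lemma int_acc {a b c e : ℤ} (ha : 0 ≤ a) (hb : 0 ≤ b) (hc : 0 ≤ c) (he : 0 ≤ e)
    (h : c < a ∨ (a = c ∧ e ≤ b)) :
    |(-a - b + c + e) - a * (e - 1)| ≤ PP a b c e := by
  have e1 : (-a - b + c + e) - a * (e - 1) = -b + c - (a - 1) * e := by ring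
  rw [e1]
  unfold PP
  rcases eq_or_lt_of_le ha with h0 | h0
  · subst h0
    rcases h with h | ⟨h, h'⟩
    · omega
    · subst h
      rw [abs_le]
      constructor <;> linarith
  · have h1 : 1 ≤ a := h0
    have f1 : 0 ≤ (a - 1) * e := mul_nonneg (by linarith) he
    have f2 : (a - 1) * e ≤ a * (a - 1) * (a + b + c + e + 1) := by
      have : (a - 1) * e ≤ (a - 1) * (a * (a + b + c + e + 1)) := by
        apply mul_le_mul_of_nonneg_left _ (by linarith)
        nlinarith [mul_nonneg ha (add_nonneg (add_nonneg hb hc) he)]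
      nlinarith
    have f3 : b + c ≤ a * (b + c) * (a + b + c + e + 1) := by
      have g1 : b + c ≤ a * (b + c) := by nlinarith
      have g2 : a * (b + c) * 1 ≤ a * (b + c) * (a + b + c + e + 1) :=
        mul_le_mul_of_nonneg_left (by linarith) (mul_nonneg ha (by linarith))
      linarith
    have f4 : (a * (a - 1) + a * (b + c)) * (a + b + c + e + 1) =
      a * (a - 1) * (a + b + c + e + 1) + a * (b + c) * (a + b + c + e + 1) := by ring
    rw [f4, abs_le]
    constructor <;> linarith

lemma int_rej {a b c e : ℤ} (ha : 0 ≤ a) (hb : 0 ≤ b) (hc : 0 ≤ c) (he : 0 ≤ e)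
    (h : ¬ (a = 1 ∧ b = 0 ∧ c = 0)) : |a * (e - 1)| ≤ PP a b c e := by
  unfold PP
  have k0 : |e - 1| ≤ e + 1 := by rw [abs_le]; constructor <;> linarith
  rw [abs_mul, abs_of_nonneg ha]
  have k1 : a * |e - 1| ≤ a * (e + 1) := mul_le_mul_of_nonneg_left k0 ha
  refine k1.trans ?_
  rcases lt_trichotomy a 1 with h1 | h1 | h1
  · have : a = 0 := by omega
    subst this
    simp; exact hb
  · subst h1
    have hbc : 1 ≤ b + c := by
      by_contra hh
      push Not at hh
      exact h ⟨rfl, by omega, by omega⟩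
    have : (1 : ℤ) * (e + 1) ≤ (b + c) * (1 + b + c + e + 1) := by
      have g1 : (b + c) * (e + 1) ≤ (b + c) * (1 + b + c + e + 1) :=
        mul_le_mul_of_nonneg_left (by linarith) (by linarith)
      nlinarith
    nlinarith
  · have g1 : a * (e + 1) ≤ a * (a - 1) * (e + 1) := by
      have := mul_nonneg (mul_nonneg ha (by linarith : (0 : ℤ) ≤ a - 2))
        (by linarith : (0 : ℤ) ≤ e + 1)
      nlinarith
    have g2 : a * (a - 1) * (e + 1) ≤ a * (a - 1) * (a + b + c + e + 1) :=
      mul_le_mul_of_nonneg_left (by linarith) (mul_nonneg ha (by linarith))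
    have g3 : 0 ≤ a * (b + c) * (a + b + c + e + 1) := by positivity
    nlinarith

end Q331.EA
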