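import Pool.Agent.Q331.EA.Count

/-!
# The expected change of the potential
-/

namespace Q331.EA

open Finset

section

variable {n : ℕ} {p : Fin n → ℝ} {x : Fin n → Bool}

open Classical in
/-- index set -/
noncomputable def SA (p : Fin n → ℝ) (x : Fin n → Bool) : Finset (Fin n) :=
  univ.filter (fun i => x i = false ∧ p i = 1)

open Classical in
/-- index set -/
noncomputable def SB (p : Fin n → ℝ) (x : Fin n → Bool) : Finset (Fin n) :=
  univ.filter (fun i => x i = false ∧ p i ≠ 1)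

open Classical in
/-- index set -/
noncomputable def SC (p : Fin n → ℝ) (x : Fin n → Bool) : Finset (Fin n) :=
  univ.filter (fun i => x i = true ∧ p i = 1)

open Classical in
/-- index set -/
noncomputable def SE (p : Fin n → ℝ) (x : Fin n → Bool) : Finset (Fin n) :=
  univ.filter (fun i => x i = true ∧ p i ≠ 1)

lemma card_SA : ((SA p x).card : ℝ) = ca p x := by
  classical
  unfold SA ca
  push_cast
  rw [Finset.card_filter]
  push_cast
  rfl

lemma card_SB : ((SB p x).card : ℝ) = cb p x := by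
  classical
  unfold SB cb
  push_cast
  rw [Finset.card_filter]
  push_cast
  rfl

lemma card_SC : ((SC p x).card : ℝ) = cc p x := by
  classical
  unfold SC cc
  push_cast
  rw [Finset.card_filter]
  push_cast
  rfl

lemma card_SE : ((SE p x).card : ℝ) = ce p x := by
  classical
  unfold SE ce
  push_cast
  rw [Finset.card_filter]
  push_cast
  rfl

lemma ka_eq (y : Fin n → Bool) : (ka p x y : ℝ) = ∑ i ∈ SA p x, ind x y i := by
  classical
  unfold SA ka ind
  push_cast
  rw [Finset.sum_filter]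
  apply sum_congr rfl
  intro i _
  by_cases h : (x i = false ∧ p i = 1)
  · by_cases hy : y i = x i
    · rw [if_neg (fun hh => hh.2 hy), if_pos h, if_pos hy]
    · rw [if_pos ⟨h, hy⟩, if_pos h, if_neg hy]
  · rw [if_neg (fun hh => h hh.1), if_neg h]

lemma kb_eq (y : Fin n → Bool) : (kb p x y : ℝ) = ∑ i ∈ SB p x, ind x y i := by
  classical
  unfold SB kb ind
  push_cast
  rw [Finset.sum_filter]
  apply sum_congr rfl
  intro i _
  by_cases h : (x i = false ∧ p i ≠ 1)
  · by_cases hy : y i = x i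
    · rw [if_neg (fun hh => hh.2 hy), if_pos h, if_pos hy]
    · rw [if_pos ⟨h, hy⟩, if_pos h, if_neg hy]
  · rw [if_neg (fun hh => h hh.1), if_neg h]

lemma kc_eq (y : Fin n → Bool) : (kc p x y : ℝ) = ∑ i ∈ SC p x, ind x y i := by
  classical
  unfold SC kc ind
  push_cast
  rw [Finset.sum_filter]
  apply sum_congr rfl
  intro i _
  by_cases h : (x i = true ∧ p i = 1)
  · by_cases hy : y i = x i
    · rw [if_neg (fun hh => hh.2 hy), if_pos h, if_pos hy]
    · rw [if_pos ⟨h, hy⟩, if_pos h, if_neg hy]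
  · rw [if_neg (fun hh => h hh.1), if_neg h]

lemma ke_eq (y : Fin n → Bool) : (ke p x y : ℝ) = ∑ i ∈ SE p x, ind x y i := by
  classical
  unfold SE ke ind
  push_cast
  rw [Finset.sum_filter]
  apply sum_congr rfl
  intro i _
  by_cases h : (x i = true ∧ p i ≠ 1)
  · by_cases hy : y i = x i
    · rw [if_neg (fun hh => hh.2 hy), if_pos h, if_pos hy]
    · rw [if_pos ⟨h, hy⟩, if_pos h, if_neg hy]
  · rw [if_neg (fun hh => h hh.1), if_neg h]

lemma kk_eq (y : Fin n → Bool) :
    (ka p x y : ℝ) + kb p x y + kc p x y + ke p x y = ∑ i, ind x y i := by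
  classical
  unfold ka kb kc ke ind
  push_cast
  rw [← sum_add_distrib, ← sum_add_distrib, ← sum_add_distrib]
  apply sum_congr rfl
  intro i _
  by_cases h : p i = 1 <;> cases hx : x i <;> cases hy : y i <;> simp [h]

/-- the jobs that are not small on machine `true` -/
noncomputable def ST (p : Fin n → ℝ) (x : Fin n → Bool) : Finset (Fin n) :=
  SA p x ∪ (SB p x ∪ SC p x)

lemma disj_AB : Disjoint (SA p x) (SB p x) := by
  classical
  unfold SA SB
  rw [Finset.disjoint_filter]
  intro i _ h1 h2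
  exact h2.2 h1.2

lemma disj_AC : Disjoint (SA p x) (SC p x) := by
  classical
  unfold SA SC
  rw [Finset.disjoint_filter]
  intro i _ h1 h2
  rw [h1.1] at h2; exact absurd h2.1 (by simp)

lemma disj_BC : Disjoint (SB p x) (SC p x) := by
  classical
  unfold SB SC
  rw [Finset.disjoint_filter]
  intro i _ h1 h2
  exact h1.2 h2.2

lemma disj_AE : Disjoint (SA p x) (SE p x) := by
  classical
  unfold SA SE
  rw [Finset.disjoint_filter]
  intro i _ h1 h2
  exact h2.2 h1.2

lemma sum_ST (f : Fin n → ℝ) :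
    ∑ i ∈ ST p x, f i = ∑ i ∈ SA p x, f i + (∑ i ∈ SB p x, f i + ∑ i ∈ SC p x, f i) := by
  classical
  unfold ST
  rw [sum_union, sum_union disj_BC]
  exact Finset.disjoint_union_right.mpr ⟨disj_AB, disj_AC⟩

lemma card_ST : ((ST p x).card : ℝ) = ca p x + (cb p x + cc p x) := by
  have h := sum_ST (p := p) (x := x) (fun _ => (1 : ℝ))
  simp only [sum_const, nsmul_eq_mul, mul_one] at h
  rw [h, card_SA, card_SB, card_SC]

/-- The quadratic part of the error polynomial. -/
lemma pp_eq (y : Fin n → Bool) :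
    (ka p x y : ℝ) * (ka p x y - 1) + ka p x y * (kb p x y + kc p x y) =
      ∑ i ∈ SA p x, ∑ j ∈ (ST p x).erase i, ind x y i * ind x y j := by
  classical
  have h1 : ∀ i ∈ SA p x, ∑ j ∈ (ST p x).erase i, ind x y i * ind x y j =
      ind x y i * (ka p x y + kb p x y + kc p x y) - ind x y i := by
    intro i hi
    have hiT : i ∈ ST p x := by unfold ST; exact mem_union_left _ hi
    have h2 := Finset.add_sum_erase (ST p x) (fun j => ind x y i * ind x y j) hiT
    have h3 : ∑ j ∈ ST p x, ind x y i * ind x y j =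
        ind x y i * (ka p x y + kb p x y + kc p x y) := by
      rw [← mul_sum, sum_ST, ka_eq, kb_eq, kc_eq]; ring
    rw [h3, ind_sq] at h2
    linarith
  rw [sum_congr rfl h1, sum_sub_distrib, ← sum_mul, ← ka_eq]
  ring

/-! ### Expectations -/

lemma ex_ka : ex x (fun y => (ka p x y : ℝ)) = ca p x * (1 / (n : ℝ)) := by
  have : (fun y => (ka p x y : ℝ)) = fun y => ∑ i ∈ SA p x, ind x y i := funext fun y => ka_eq y
  rw [this, ex_sum, sum_congr rfl (fun i _ => ex_ind i), sum_const, nsmul_eq_mul, card_SA]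

lemma ex_kb : ex x (fun y => (kb p x y : ℝ)) = cb p x * (1 / (n : ℝ)) := by
  have : (fun y => (kb p x y : ℝ)) = fun y => ∑ i ∈ SB p x, ind x y i := funext fun y => kb_eq y
  rw [this, ex_sum, sum_congr rfl (fun i _ => ex_ind i), sum_const, nsmul_eq_mul, card_SB]

lemma ex_kake : ex x (fun y => (ka p x y : ℝ) * ke p x y) =
    ca p x * ce p x * (1 / (n : ℝ)) ^ 2 := by
  have : (fun y => (ka p x y : ℝ) * ke p x y) =
      fun y => ∑ i ∈ SA p x, ∑ j ∈ SE p x, ind x y i * ind x y j := by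
    funext y
    rw [ka_eq, ke_eq, sum_mul_sum]
  rw [this, ex_sum]
  have h1 : ∀ i ∈ SA p x, ex x (fun y => ∑ j ∈ SE p x, ind x y i * ind x y j) =
      ce p x * (1 / (n : ℝ)) ^ 2 := by
    intro i hi
    rw [ex_sum]
    have h2 : ∀ j ∈ SE p x, ex x (fun y => ind x y i * ind x y j) = (1 / (n : ℝ)) ^ 2 := by
      intro j hj
      apply ex_ind2
      rintro rfl
      exact (Finset.disjoint_left.mp disj_AE hi) hj
    rw [sum_congr rfl h2, sum_const, nsmul_eq_mul, card_SE]
  rw [sum_congr rfl h1, sum_const, nsmul_eq_mul, card_SA]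
  ring

lemma sum_dl (hn : 0 < n) (i : Fin n) : ∑ j, (1 / (n : ℝ) + dl i j) = 2 := by
  have hn' : (n : ℝ) ≠ 0 := by
    have : (0 : ℝ) < n := by exact_mod_cast hn
    exact this.ne'
  rw [sum_add_distrib, sum_const, card_univ, Fintype.card_fin, nsmul_eq_mul]
  simp only [dl, sum_ite_eq, mem_univ, if_true]
  field_simp
  norm_num

lemma sum_dl2 (hn : 0 < n) (i j : Fin n) : ∑ l, (1 / (n : ℝ) + dl i l + dl j l) = 3 := by
  have h := sum_dl hn i
  rw [sum_add_distrib, h]
  simp only [dl, sum_ite_eq, mem_univ, if_true]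
  norm_num

lemma ex_indK (hn : 0 < n) (i : Fin n) :
    ex x (fun y => ind x y i * ∑ j, ind x y j) ≤ 2 * (1 / (n : ℝ)) := by
  have : (fun y => ind x y i * ∑ j, ind x y j) = fun y => ∑ j, ind x y i * ind x y j := by
    funext y; rw [mul_sum]
  rw [this, ex_sum]
  refine (sum_le_sum fun j _ => ex_ind2_le hn i j).trans (le_of_eq ?_)
  rw [← mul_sum, sum_dl hn]; ring

lemma ex_indKK (hn : 0 < n) (i : Fin n) :
    ex x (fun y => ind x y i * (∑ j, ind x y j) ^ 2) ≤ 6 * (1 / (n : ℝ)) := by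
  have : (fun y => ind x y i * (∑ j, ind x y j) ^ 2) =
      fun y => ∑ j, ∑ l, ind x y i * ind x y j * ind x y l := by
    funext y
    rw [sq, sum_mul_sum, mul_sum]
    apply sum_congr rfl
    intro j _
    rw [mul_sum]
    apply sum_congr rfl
    intro l _
    ring
  rw [this, ex_sum]
  have h1 : ∀ j, ex x (fun y => ∑ l, ind x y i * ind x y j * ind x y l) ≤
      3 * ((1 / (n : ℝ)) * (1 / (n : ℝ) + dl i j)) := by
    intro j
    rw [ex_sum]
    refine (sum_le_sum fun l _ => ex_ind3_le hn i j l).trans (le_of_eq ?_)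
    rw [← mul_sum, sum_dl2 hn]; ring
  refine (sum_le_sum fun j _ => h1 j).trans (le_of_eq ?_)
  rw [← mul_sum, ← mul_sum, sum_dl hn]; ring

lemma ex_ijK (hn : 0 < n) {i j : Fin n} (hij : i ≠ j) :
    ex x (fun y => ind x y i * ind x y j * (∑ l, ind x y l + 1)) ≤ 4 * (1 / (n : ℝ)) ^ 2 := by
  have : (fun y => ind x y i * ind x y j * (∑ l, ind x y l + 1)) =
      fun y => (∑ l, ind x y i * ind x y j * ind x y l) + ind x y i * ind x y j := by
    funext y
    rw [mul_add, mul_sum, mul_one]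
  rw [this, ex_add, ex_sum, ex_ind2 hij]
  have h1 : ∑ l, ex x (fun y => ind x y i * ind x y j * ind x y l) ≤ 3 * (1 / (n : ℝ)) ^ 2 := by
    refine (sum_le_sum fun l _ => ex_ind3_le hn i j l).trans (le_of_eq ?_)
    rw [← mul_sum, sum_dl2 hn]
    simp only [dl, if_neg hij]
    ring
  linarith

/-- Expectation of the error polynomial. -/
lemma ex_PP (hn : 0 < n) :
    ex x (fun y => ((PP (ka p x y) (kb p x y) (kc p x y) (ke p x y) : ℤ) : ℝ)) ≤
      cb p x * (1 / (n : ℝ)) +
        4 * (ca p x * (ca p x + (cb p x + cc p x))) * (1 / (n : ℝ)) ^ 2 := by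
  classical
  have : (fun y => ((PP (ka p x y) (kb p x y) (kc p x y) (ke p x y) : ℤ) : ℝ)) =
      fun y => (kb p x y : ℝ) + ∑ i ∈ SA p x, ∑ j ∈ (ST p x).erase i,
        ind x y i * ind x y j * (∑ l, ind x y l + 1) := by
    funext y
    unfold PP
    push_cast
    rw [pp_eq, kk_eq, sum_mul]
    congr 1
    apply sum_congr rfl
    intro i _
    rw [sum_mul]
  rw [this, ex_add, ex_kb, ex_sum]
  have h1 : ∀ i ∈ SA p x, ex x (fun y => ∑ j ∈ (ST p x).erase i,
        ind x y i * ind x y j * (∑ l, ind x y l + 1)) ≤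
      (ca p x + (cb p x + cc p x)) * (4 * (1 / (n : ℝ)) ^ 2) := by
    intro i _
    rw [ex_sum]
    refine (sum_le_sum fun j hj => ex_ijK hn (Ne.symm (ne_of_mem_erase hj))).trans ?_
    rw [sum_const, nsmul_eq_mul]
    apply mul_le_mul_of_nonneg_right _ (by positivity)
    rw [← card_ST]
    exact_mod_cast Finset.card_le_card (Finset.erase_subset _ _)
  refine add_le_add (le_refl _) ((sum_le_sum h1).trans (le_of_eq ?_))
  rw [sum_const, nsmul_eq_mul, card_SA]
  ring

lemma ex_S (hn : 0 < n) {Q : ℝ} (hQ : 0 ≤ Q) :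
    ex x (fun y => (ka p x y : ℝ) * (2 * (∑ l, ind x y l) ^ 2 + 2 * Q * ∑ l, ind x y l)) ≤
      ca p x * (12 + 4 * Q) * (1 / (n : ℝ)) := by
  have : (fun y => (ka p x y : ℝ) * (2 * (∑ l, ind x y l) ^ 2 + 2 * Q * ∑ l, ind x y l)) =
      fun y => ∑ i ∈ SA p x, (2 * (ind x y i * (∑ l, ind x y l) ^ 2) +
        2 * Q * (ind x y i * ∑ l, ind x y l)) := by
    funext y
    rw [ka_eq, sum_mul]
    apply sum_congr rfl
    intro i _
    ring
  rw [this, ex_sum]
  have h1 : ∀ i ∈ SA p x, ex x (fun y => (2 * (ind x y i * (∑ l, ind x y l) ^ 2) +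
        2 * Q * (ind x y i * ∑ l, ind x y l))) ≤ (12 + 4 * Q) * (1 / (n : ℝ)) := by
    intro i _
    rw [ex_add, ex_smul, ex_smul]
    have a := ex_indKK (x := x) hn i
    have b := ex_indK (x := x) hn i
    have c : 2 * Q * ex x (fun y => ind x y i * ∑ l, ind x y l) ≤ 2 * Q * (2 * (1 / (n : ℝ))) :=
      mul_le_mul_of_nonneg_left b (by linarith)
    linarith
  refine (sum_le_sum h1).trans (le_of_eq ?_)
  rw [sum_const, nsmul_eq_mul, card_SA]
  ring

lemma ex_kb2 (hn : 0 < n) : ex x (fun y => (kb p x y : ℝ) ^ 2) ≤ 2 * cb p x * (1 / (n : ℝ)) := by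
  have : (fun y => (kb p x y : ℝ) ^ 2) =
      fun y => ∑ i ∈ SB p x, ∑ j ∈ SB p x, ind x y i * ind x y j := by
    funext y
    rw [sq, kb_eq, sum_mul_sum]
  rw [this, ex_sum]
  have h1 : ∀ i ∈ SB p x, ex x (fun y => ∑ j ∈ SB p x, ind x y i * ind x y j) ≤
      2 * (1 / (n : ℝ)) := by
    intro i _
    rw [ex_sum]
    refine (sum_le_sum fun j _ => ex_ind2_le hn i j).trans ?_
    rw [← mul_sum]
    have h2 : ∑ j ∈ SB p x, (1 / (n : ℝ) + dl i j) ≤ ∑ j, (1 / (n : ℝ) + dl i j) := by
      apply Finset.sum_le_sum_of_subset_of_nonneg (subset_univ _)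
      intro j _ _
      have : (0 : ℝ) ≤ 1 / n := by positivity
      have := dl_nonneg i j
      linarith
    rw [sum_dl hn] at h2
    have h3 : (0 : ℝ) ≤ 1 / n := by positivity
    nlinarith
  refine (sum_le_sum h1).trans (le_of_eq ?_)
  rw [sum_const, nsmul_eq_mul, card_SB]
  ring

end

end Q331.EA
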