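import Pool.Agent.Q331.EA.Step

/-!
# The adversary and the lower bound
-/

namespace Q331.EA

open Finset

section

variable {n : ℕ}

open Classical in
/-- The adversary: a small job on machine `false` is made big, or a big job on machine `true` is
made small, one at a time. -/
noncomputable def adv (δ : ℝ) : Strategy n := fun _ s =>
  if H : ∃ i, (s.x i = false ∧ s.p i ≠ 1) ∨ (s.x i = true ∧ s.p i = 1) then
    Function.update s.p H.choose (if s.x H.choose = false then 1 else δ)
  else s.p

lemma adv_valid {δ : ℝ} (hδ : δ ≤ 1) : Valid (n := n) δ 1 (adv δ) := by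
  intro h s
  unfold adv
  by_cases H : ∃ i, (s.x i = false ∧ s.p i ≠ 1) ∨ (s.x i = true ∧ s.p i = 1)
  · right
    rw [dif_pos H]
    refine ⟨H.choose, (if s.x H.choose = false then 1 else δ), ?_, ?_, rfl⟩
    · split_ifs
      · exact hδ
      · exact le_refl _
    · split_ifs
      · exact le_refl _
      · exact hδ
  · left; rw [dif_neg H]

lemma sum_change (f g : Fin n → ℤ) (i : Fin n) (h : ∀ j, j ≠ i → f j = g j) :
    ∑ j, f j = ∑ j, g j + (f i - g i) := by
  classical
  have : ∑ j, (f j - g j) = f i - g i := by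
    apply sum_eq_single i
    · intro j _ hj; rw [h j hj, sub_self]
    · intro h; exact absurd (mem_univ _) h
  rw [sum_sub_distrib] at this
  linarith

lemma counts_up {p : Fin n → ℝ} {x : Fin n → Bool} {i : Fin n} (hx : x i = false)
    (hp : p i ≠ 1) : ca (Function.update p i 1) x = ca p x + 1 ∧
    cb (Function.update p i 1) x = cb p x - 1 ∧ cc (Function.update p i 1) x = cc p x := by
  classical
  refine ⟨?_, ?_, ?_⟩
  · unfold ca
    rw [sum_change _ (fun j => if x j = false ∧ p j = 1 then 1 else 0) i]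
    · simp [hx, hp]
    · intro j hj; simp [Function.update_of_ne hj]
  · unfold cb
    rw [sum_change _ (fun j => if x j = false ∧ p j ≠ 1 then 1 else 0) i]
    · simp [hx, hp]; ring
    · intro j hj; simp [Function.update_of_ne hj]
  · unfold cc
    rw [sum_change _ (fun j => if x j = true ∧ p j = 1 then 1 else 0) i]
    · simp [hx]
    · intro j hj; simp [Function.update_of_ne hj]

lemma counts_down {p : Fin n → ℝ} {x : Fin n → Bool} {i : Fin n} {δ : ℝ} (hδ : δ ≠ 1)
    (hx : x i = true) (hp : p i = 1) : ca (Function.update p i δ) x = ca p x ∧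
    cb (Function.update p i δ) x = cb p x ∧ cc (Function.update p i δ) x = cc p x - 1 := by
  classical
  refine ⟨?_, ?_, ?_⟩
  · unfold ca
    rw [sum_change _ (fun j => if x j = false ∧ p j = 1 then 1 else 0) i]
    · simp [hx]
    · intro j hj; simp [Function.update_of_ne hj]
  · unfold cb
    rw [sum_change _ (fun j => if x j = false ∧ p j ≠ 1 then 1 else 0) i]
    · simp [hx]
    · intro j hj; simp [Function.update_of_ne hj]
  · unfold cc
    rw [sum_change _ (fun j => if x j = true ∧ p j = 1 then 1 else 0) i]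
    · simp [hx, hp, hδ]; ring
    · intro j hj; simp [Function.update_of_ne hj]

/-- The effect of the adversary on the counts. -/
lemma adv_counts {δ : ℝ} (hδ : δ ≠ 1) (h : List (St n × (Fin n → Bool))) (s : St n) :
    (ca (adv δ h s) s.x + cb (adv δ h s) s.x = ca s.p s.x + cb s.p s.x ∧
      cb (adv δ h s) s.x + cc (adv δ h s) s.x = cb s.p s.x + cc s.p s.x - 1 ∧
      ca (adv δ h s) s.x - cc (adv δ h s) s.x = ca s.p s.x - cc s.p s.x + 1) ∨
    (adv δ h s = s.p ∧ cb s.p s.x + cc s.p s.x = 0) := by
  classical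
  by_cases H : ∃ i, (s.x i = false ∧ s.p i ≠ 1) ∨ (s.x i = true ∧ s.p i = 1)
  · left
    have e : adv δ h s = Function.update s.p H.choose (if s.x H.choose = false then 1 else δ) := by
      unfold adv; rw [dif_pos H]
    rw [e]
    rcases H.choose_spec with ⟨h1, h2⟩ | ⟨h1, h2⟩
    · rw [if_pos h1]
      obtain ⟨a1, a2, a3⟩ := counts_up h1 h2
      rw [a1, a2, a3]
      refine ⟨by ring, by ring, by ring⟩
    · rw [if_neg (by rw [h1]; simp)]
      obtain ⟨a1, a2, a3⟩ := counts_down hδ h1 h2
      rw [a1, a2, a3]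
      refine ⟨by ring, by ring, by ring⟩
  · right
    refine ⟨by unfold adv; rw [dif_neg H], ?_⟩
    push Not at H
    unfold cb cc
    have h1 : ∑ i, (if s.x i = false ∧ s.p i ≠ 1 then (1 : ℤ) else 0) = 0 := by
      apply sum_eq_zero
      intro i _
      rw [if_neg]
      rintro ⟨h1, h2⟩
      exact h2 ((H i).1 h1)
    have h2 : ∑ i, (if s.x i = true ∧ s.p i = 1 then (1 : ℤ) else 0) = 0 := by
      apply sum_eq_zero
      intro i _
      rw [if_neg]
      rintro ⟨h1, h2⟩
      exact (H i).2 h1 h2
    rw [h1, h2]; ring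

lemma adv_two {δ : ℝ} (h : List (St n × (Fin n → Bool))) (s : St n)
    (hp : ∀ i, s.p i = 1 ∨ s.p i = δ) (i : Fin n) : adv δ h s i = 1 ∨ adv δ h s i = δ := by
  classical
  by_cases H : ∃ i, (s.x i = false ∧ s.p i ≠ 1) ∨ (s.x i = true ∧ s.p i = 1)
  · have e : adv δ h s = Function.update s.p H.choose (if s.x H.choose = false then 1 else δ) := by
      unfold adv; rw [dif_pos H]
    rw [e]
    by_cases hi : i = H.choose
    · rw [hi, Function.update_self]
      split_ifs
      · left; rfl
      · right; rfl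
    · rw [Function.update_of_ne hi]; exact hp i
  · have e : adv δ h s = s.p := by unfold adv; rw [dif_neg H]
    rw [e]; exact hp i

lemma surv_nonneg (hn : 0 < n) (U : ℝ) (σ : Strategy n) :
    ∀ (t : ℕ) (h : List (St n × (Fin n → Bool))) (s : St n), 0 ≤ surv U σ t h s := by
  intro t
  induction t with
  | zero => intro h s; unfold surv; split_ifs <;> norm_num
  | succ t ih =>
    intro h s
    unfold surv
    split_ifs
    · exact le_refl _
    · exact le_refl _
    · exact sum_nonneg fun y _ => mul_nonneg (mutProb_nonneg hn _ _) (ih _ _)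

/-- Additive drift: a lower bound for the expected (truncated) time. -/
lemma surv_bound (hn : 0 < n) (U : ℝ) (σ : Strategy n) (Inv : St n → Prop) (G : St n → ℝ)
    (Gm : ℝ) (hGm : 0 ≤ Gm)
    (h1 : ∀ h s y, Inv s → Inv ⟨select (σ h s) s.x y, σ h s⟩) (h2 : ∀ s, G s ≤ Gm)
    (h3 : ∀ h s, Inv s → 0 < G s → U < disc s.p s.x ∧ U < disc (σ h s) s.x ∧
      G s ≤ 1 + ex s.x (fun y => G ⟨select (σ h s) s.x y, σ h s⟩)) :
    ∀ (t : ℕ) (h : List (St n × (Fin n → Bool))) (s : St n), Inv s →
      G s - Gm * surv U σ t h s ≤ ∑ j ∈ range t, surv U σ j h s := by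
  intro t
  induction t with
  | zero =>
    intro h s hs
    rw [sum_range_zero]
    by_cases hG : G s ≤ 0
    · have := mul_nonneg hGm (surv_nonneg hn U σ 0 h s)
      linarith
    · push Not at hG
      obtain ⟨a1, -, -⟩ := h3 h s hs hG
      have e : surv U σ 0 h s = 1 := by unfold surv; rw [if_neg (not_le.mpr a1)]
      rw [e]
      have := h2 s
      linarith
  | succ t ih =>
    intro h s hs
    by_cases hG : G s ≤ 0
    · have a1 := mul_nonneg hGm (surv_nonneg hn U σ (t + 1) h s)
      have a2 : 0 ≤ ∑ j ∈ range (t + 1), surv U σ j h s :=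
        sum_nonneg fun j _ => surv_nonneg hn U σ j h s
      linarith
    · push Not at hG
      obtain ⟨a1, a2, a3⟩ := h3 h s hs hG
      have es : ∀ j, surv U σ (j + 1) h s = ex s.x (fun y => surv U σ j ((s, y) :: h)
          ⟨select (σ h s) s.x y, σ h s⟩) := by
        intro j
        conv_lhs => unfold surv
        rw [if_neg (not_le.mpr a1), if_neg (not_le.mpr a2)]
        rfl
      have e0 : surv U σ 0 h s = 1 := by unfold surv; rw [if_neg (not_le.mpr a1)]
      rw [sum_range_succ', e0, sum_congr rfl (fun j _ => es j), es t, ← ex_sum]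
      have key : ex s.x (fun y => G ⟨select (σ h s) s.x y, σ h s⟩) -
          Gm * ex s.x (fun y => surv U σ t ((s, y) :: h) ⟨select (σ h s) s.x y, σ h s⟩) ≤
          ex s.x (fun y => ∑ j ∈ range t, surv U σ j ((s, y) :: h)
            ⟨select (σ h s) s.x y, σ h s⟩) := by
        have : ex s.x (fun y => G ⟨select (σ h s) s.x y, σ h s⟩) -
          Gm * ex s.x (fun y => surv U σ t ((s, y) :: h) ⟨select (σ h s) s.x y, σ h s⟩) =
          ex s.x (fun y => G ⟨select (σ h s) s.x y, σ h s⟩ +
            (-Gm) * surv U σ t ((s, y) :: h) ⟨select (σ h s) s.x y, σ h s⟩) := by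
          rw [ex_add, ex_smul]; ring
        rw [this]
        apply ex_mono hn
        intro y
        have := ih ((s, y) :: h) ⟨select (σ h s) s.x y, σ h s⟩ (h1 h s y hs)
        linarith
      linarith

lemma expT_ge (hn : 0 < n) (U : ℝ) (σ : Strategy n) (Inv : St n → Prop) (G : St n → ℝ)
    (Gm : ℝ) (hGm : 0 ≤ Gm)
    (h1 : ∀ h s y, Inv s → Inv ⟨select (σ h s) s.x y, σ h s⟩) (h2 : ∀ s, G s ≤ Gm)
    (h3 : ∀ h s, Inv s → 0 < G s → U < disc s.p s.x ∧ U < disc (σ h s) s.x ∧
      G s ≤ 1 + ex s.x (fun y => G ⟨select (σ h s) s.x y, σ h s⟩))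
    (s : St n) (hs : Inv s) : ENNReal.ofReal (G s) ≤ expT U σ s := by
  by_cases htop : expT U σ s = ⊤
  · rw [htop]; exact le_top
  have hsum : Summable (fun t => surv U σ t [] s) := by
    have h := ENNReal.summable_toReal (f := fun t => ENNReal.ofReal (surv U σ t [] s)) htop
    refine h.congr ?_
    intro t
    exact ENNReal.toReal_ofReal (surv_nonneg hn U σ t [] s)
  have hlim := hsum.tendsto_atTop_zero
  have hval : ENNReal.ofReal (∑' t, surv U σ t [] s) = expT U σ s :=
    ENNReal.ofReal_tsum_of_nonneg (fun t => surv_nonneg hn U σ t [] s) hsum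
  rw [← hval]
  apply ENNReal.ofReal_le_ofReal
  have hb : ∀ t : ℕ, G s - Gm * surv U σ t [] s ≤ ∑' t, surv U σ t [] s := by
    intro t
    refine (surv_bound hn U σ Inv G Gm hGm h1 h2 h3 t [] s hs).trans ?_
    exact hsum.sum_le_tsum _ (fun j _ => surv_nonneg hn U σ j [] s)
  have hl : Filter.Tendsto (fun t => G s - Gm * surv U σ t [] s) Filter.atTop
      (nhds (G s - Gm * 0)) := tendsto_const_nhds.sub (hlim.const_mul Gm)
  rw [mul_zero, sub_zero] at hl
  exact le_of_tendsto' hl hb

/-- **The lower bound.** -/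
theorem Tstar_ge (hn : 256 ≤ n) : ENNReal.ofReal ((n : ℝ) * √n / 160) ≤ Tstar n := by
  classical
  have hn0 : 0 < n := by omega
  have hnr : (256 : ℝ) ≤ n := by exact_mod_cast hn
  have hnpos : (0 : ℝ) < n := by linarith
  set m0 : ℕ := Nat.sqrt n with hm0
  have hm16 : 16 ≤ m0 := by
    rw [hm0, Nat.le_sqrt]; omega
  have hm2 : m0 ^ 2 ≤ n := by rw [hm0]; exact Nat.sqrt_le' n
  set m : ℝ := (m0 : ℝ) with hm
  have hmr : (16 : ℝ) ≤ m := by rw [hm]; exact_mod_cast hm16
  have hmn : m ^ 2 ≤ n := by rw [hm]; exact_mod_cast hm2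
  set δ : ℝ := 1 / (2 * n) with hδ
  have hδ0 : 0 < δ := by positivity
  have hδn : δ * n ≤ 1 / 2 := by rw [hδ]; apply le_of_eq; field_simp
  have hδ1 : δ < 1 := by
    rw [hδ, div_lt_one (by positivity)]; linarith
  -- the initial state
  set x0 : Fin n → Bool := fun i => !decide (i.val < m0) with hx0
  set p0 : Fin n → ℝ := fun i => if i.val < m0 then 1 else δ with hp0
  have hm0n : m0 ≤ n := by
    have : m0 * 1 ≤ m0 ^ 2 := by nlinarith
    omega
  have c1 : ca p0 x0 = m0 := by
    unfold ca
    have : ∀ i ∈ (univ : Finset (Fin n)), (if x0 i = false ∧ p0 i = 1 then (1 : ℤ) else 0) =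
        if i.val < m0 then 1 else 0 := by
      intro i _
      by_cases h : i.val < m0
      · simp [hx0, hp0, h]
      · simp [hx0, hp0, h]
    rw [sum_congr rfl this, ← Finset.sum_filter]
    simp only [sum_const, nsmul_eq_mul, mul_one]
    rw [Fin.card_filter_val_lt]
    simp [hm0n]
  have c2 : cb p0 x0 = 0 := by
    unfold cb
    apply sum_eq_zero
    intro i _
    rw [if_neg]
    rintro ⟨h1, h2⟩
    by_cases h : i.val < m0
    · simp [hp0, h] at h2
    · simp [hx0, h] at h1
  have c3 : cc p0 x0 = 0 := by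
    unfold cc
    apply sum_eq_zero
    intro i _
    rw [if_neg]
    rintro ⟨h1, h2⟩
    by_cases h : i.val < m0
    · simp [hx0, h] at h1
    · simp only [hp0, if_neg h] at h2
      exact absurd h2 hδ1.ne
  set B : ℝ := (m - 1) ^ 2 / 2 with hB
  set κ : ℝ := 64 * m / n with hκ
  have hκ0 : 0 < κ := by positivity
  have hB0 : 0 ≤ B := by positivity
  set G : St n → ℝ := fun s => (B - Ht m s.p s.x) / κ with hG
  have hHt0 : ∀ (p : Fin n → ℝ) (x : Fin n → Bool), 0 ≤ Ht m p x := by
    intro p x
    unfold Ht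
    split_ifs
    · apply le_min
      · positivity
      · unfold Hq; positivity
    · positivity
  have hge := expT_ge (n := n) hn0 1 (adv δ) (fun s => ∀ i, s.p i = 1 ∨ s.p i = δ) G (B / κ)
    (by positivity) ?_ ?_ ?_ ⟨x0, p0⟩ ?_
  · refine le_trans ?_ (hge.trans ?_)
    · apply ENNReal.ofReal_le_ofReal
      have hHq : Ht m p0 x0 ≤ 0 := by
        refine (Ht_le (by linarith) p0 x0).trans ?_
        unfold Hq
        rw [c1, c2, c3]
        simp [hm]
      have g1 : B / κ ≤ G ⟨x0, p0⟩ := by
        show B / κ ≤ (B - Ht m p0 x0) / κ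
        apply div_le_div_of_nonneg_right _ hκ0.le
        linarith
      refine le_trans ?_ g1
      rw [hB, hκ, le_div_iff₀ (by positivity)]
      have hs1 : √(n : ℝ) ≤ m + 1 := by
        rw [Real.sqrt_le_left (by linarith)]
        have : n < (m0 + 1) ^ 2 := by rw [hm0]; exact Nat.lt_succ_sqrt' n
        have h2 : (n : ℝ) < ((m0 + 1 : ℕ) : ℝ) ^ 2 := by exact_mod_cast this
        push_cast at h2
        rw [← hm] at h2
        exact h2.le
      have hs0 : 0 ≤ √(n : ℝ) := Real.sqrt_nonneg _
      have e : (n : ℝ) * √n / 160 * (64 * m / n) = (64 / 160) * (√n * m) := by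
        field_simp
      rw [e]
      have h3 : √(n : ℝ) * m ≤ (m + 1) * m := mul_le_mul_of_nonneg_right hs1 (by linarith)
      nlinarith
    · unfold Tstar
      refine le_iSup_of_le δ (le_iSup_of_le 1 (le_iSup_of_le p0 (le_iSup_of_le x0
        (le_iSup_of_le (adv δ) (le_iSup_of_le ?_ (le_refl _))))))
      refine ⟨hδ0, hδ1.le, ?_, adv_valid hδ1.le⟩
      intro i
      simp only [hp0]
      split_ifs
      · exact ⟨hδ1.le, le_refl _⟩
      · exact ⟨le_refl _, hδ1.le⟩
  · -- invariance
    intro h s y hs i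
    exact adv_two h s hs i
  · -- upper bound for `G`
    intro s
    show (B - Ht m s.p s.x) / κ ≤ B / κ
    apply div_le_div_of_nonneg_right _ hκ0.le
    have := hHt0 s.p s.x
    linarith
  · -- one step
    intro h s hs hGs
    have hHt : Ht m s.p s.x < B := by
      by_contra hcon
      push Not at hcon
      have : G s ≤ 0 := by
        show (B - Ht m s.p s.x) / κ ≤ 0
        apply div_nonpos_of_nonpos_of_nonneg (by linarith) hκ0.le
      linarith
    have hD : 2 ≤ ca s.p s.x - cc s.p s.x := by
      by_contra hcon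
      unfold Ht at hHt
      rw [if_neg hcon] at hHt
      exact lt_irrefl _ hHt
    have hHeq : Ht m s.p s.x = Hq m s.p s.x := by
      have h0 := hHt
      unfold Ht at h0 ⊢
      rw [if_pos hD] at h0 ⊢
      apply min_eq_right
      by_contra hcon
      push Not at hcon
      rw [min_eq_left hcon.le] at h0
      exact lt_irrefl _ h0
    have hHqB : Hq m s.p s.x < B := by rw [← hHeq]; exact hHt
    have hZ : (ca s.p s.x : ℝ) + cb s.p s.x ≤ 2 * m := by
      by_contra hcon
      push Not at hcon
      have : (m - 1) ^ 2 / 2 ≤ Hq m s.p s.x := by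
        unfold Hq
        nlinarith [sq_nonneg ((cb s.p s.x : ℝ) + cc s.p s.x)]
      linarith
    have hp' : ∀ i, adv δ h s i = 1 ∨ adv δ h s i = δ := adv_two h s hs
    have hd1 := (makespan_eq (x := s.x) hs hδ0 hδn hn0 hD).2
    have hcnt := adv_counts (n := n) hδ1.ne h s
    have hD' : 2 ≤ ca (adv δ h s) s.x - cc (adv δ h s) s.x := by
      rcases hcnt with ⟨-, -, h3⟩ | ⟨h3, -⟩
      · omega
      · rw [h3]; exact hD
    have hd2 := (makespan_eq (x := s.x) hp' hδ0 hδn hn0 hD').2
    refine ⟨?_, ?_, ?_⟩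
    · show 1 < |load s.p s.x false - load s.p s.x true|
      rw [lt_abs]; left; linarith
    · show 1 < |load (adv δ h s) s.x false - load (adv δ h s) s.x true|
      rw [lt_abs]; left; linarith
    · -- the drift
      have hZ' : (ca (adv δ h s) s.x : ℝ) + cb (adv δ h s) s.x ≤ 2 * m := by
        rcases hcnt with ⟨h3, -, -⟩ | ⟨h3, -⟩
        · have : ((ca (adv δ h s) s.x + cb (adv δ h s) s.x : ℤ) : ℝ) =
              ((ca s.p s.x + cb s.p s.x : ℤ) : ℝ) := by rw [h3]
          push_cast at this
          linarith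
        · rw [h3]; exact hZ
      have hstep := ex_step (p := adv δ h s) (x := s.x) hmr hmn hp' hδ0 hδn hn0 hD' hZ'
      have hbound : Hq m (adv δ h s) s.x + ((cb (adv δ h s) s.x : ℝ) + cc (adv δ h s) s.x) ≤
          Hq m s.p s.x := by
        rcases hcnt with ⟨h3, h4, -⟩ | ⟨h3, h4⟩
        · have r3 : ((ca (adv δ h s) s.x : ℝ) + cb (adv δ h s) s.x) =
              (ca s.p s.x + cb s.p s.x) := by exact_mod_cast h3
          have r4 : ((cb (adv δ h s) s.x : ℝ) + cc (adv δ h s) s.x) =
              (cb s.p s.x + cc s.p s.x) - 1 := by exact_mod_cast h4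
          have r5 : (0 : ℝ) ≤ (cb (adv δ h s) s.x : ℝ) + cc (adv δ h s) s.x := by
            have a1 := cb_nonneg (adv δ h s) s.x
            have a2 := cc_nonneg (adv δ h s) s.x
            exact_mod_cast add_nonneg a1 a2
          unfold Hq
          rw [r3, r4] at *
          nlinarith
        · rw [h3]
          have r4 : ((cb s.p s.x : ℝ) + cc s.p s.x) = 0 := by exact_mod_cast h4
          rw [r4]; linarith
      have e1 : ex s.x (fun y => G ⟨select (adv δ h s) s.x y, adv δ h s⟩) =
          (B - ex s.x (fun y => Ht m (adv δ h s) (select (adv δ h s) s.x y))) / κ := by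
        have : (fun y => G ⟨select (adv δ h s) s.x y, adv δ h s⟩) =
            fun y => B / κ + (-(1 / κ)) * Ht m (adv δ h s) (select (adv δ h s) s.x y) := by
          funext y
          show (B - Ht m (adv δ h s) (select (adv δ h s) s.x y)) / κ = _
          ring
        rw [this, ex_add, ex_const, ex_smul]
        ring
      rw [e1]
      show (B - Ht m s.p s.x) / κ ≤ 1 + _
      rw [hHeq]
      have e2 : (1 : ℝ) + (B - ex s.x (fun y => Ht m (adv δ h s)
          (select (adv δ h s) s.x y))) / κ = (κ + (B - ex s.x (fun y => Ht m (adv δ h s)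
          (select (adv δ h s) s.x y)))) / κ := by
        field_simp
      rw [e2]
      apply div_le_div_of_nonneg_right _ hκ0.le
      linarith
  · -- the initial state
    intro i
    show p0 i = 1 ∨ p0 i = δ
    simp only [hp0]
    split_ifs
    · left; rfl
    · right; rfl

end

end Q331.EA
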