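import Mathlib

/-!
# The (1+1) EA for makespan scheduling on two machines with an adversary: the model
-/

namespace Q331.EA

open Finset

/-- A state: the current solution (the machine of each job) and the current processing times. -/
structure St (n : ℕ) where
  /-- the solution -/
  x : Fin n → Bool
  /-- the processing times -/
  p : Fin n → ℝ

/-- The load of machine `b`. -/
noncomputable def load {n : ℕ} (p : Fin n → ℝ) (x : Fin n → Bool) (b : Bool) : ℝ :=
  ∑ i, if x i = b then p i else 0

/-- The makespan. -/
noncomputable def makespan {n : ℕ} (p : Fin n → ℝ) (x : Fin n → Bool) : ℝ :=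
  max (load p x false) (load p x true)

/-- The discrepancy. -/
noncomputable def disc {n : ℕ} (p : Fin n → ℝ) (x : Fin n → Bool) : ℝ :=
  |load p x false - load p x true|

/-- The probability that standard bit mutation (every bit is flipped independently with
probability `1 / n`) turns `x` into `y`. -/
noncomputable def mutProb {n : ℕ} (x y : Fin n → Bool) : ℝ :=
  ∏ i, if y i = x i then 1 - 1 / (n : ℝ) else 1 / (n : ℝ)

open Classical in
/-- Selection: the offspring `y` replaces `x` if its makespan is at most that of `x`. -/
noncomputable def select {n : ℕ} (p : Fin n → ℝ) (x y : Fin n → Bool) : Fin n → Bool :=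
  if makespan p y ≤ makespan p x then y else x

/-- An adaptive adversary: from the history (the list of all earlier states together with the
offspring created from them, the latest first) and the current state it determines the new
processing times. -/
abbrev Strategy (n : ℕ) : Type := List (St n × (Fin n → Bool)) → St n → (Fin n → ℝ)

/-- In every iteration the adversary resets at most one processing time, to a value in
`[L, U]`. -/
def Valid {n : ℕ} (L U : ℝ) (σ : Strategy n) : Prop :=
  ∀ h s, σ h s = s.p ∨ ∃ i v, L ≤ v ∧ v ≤ U ∧ σ h s = Function.update s.p i v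

open Classical in
/-- The probability that the target (discrepancy at most `U` with respect to the current
processing times) has not been reached up to the end of the next `t` iterations, if the history is
`h` and the current state is `s`.  In an iteration the adversary acts first, then an offspring is
created and selection takes place.  The target counts as reached also if the discrepancy is at
most `U` just after the move of the adversary. -/
noncomputable def surv {n : ℕ} (U : ℝ) (σ : Strategy n) :
    ℕ → List (St n × (Fin n → Bool)) → St n → ℝ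
  | 0, _, s => if disc s.p s.x ≤ U then 0 else 1
  | t + 1, h, s =>
    if disc s.p s.x ≤ U then 0 else
      if disc (σ h s) s.x ≤ U then 0 else
        ∑ y : Fin n → Bool, mutProb s.x y *
          surv U σ t ((s, y) :: h) ⟨select (σ h s) s.x y, σ h s⟩

/-- The expected time `𝔼[T] = ∑ t, ℙ(T > t)` to reach the target from the state `s`. -/
noncomputable def expT {n : ℕ} (U : ℝ) (σ : Strategy n) (s : St n) : ENNReal :=
  ∑' t : ℕ, ENNReal.ofReal (surv U σ t [] s)

/-- `T*(n)`: the supremum of the expected time over all `0 < L ≤ U`, all initial processing times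
in `[L, U]`, all initial solutions and all adversaries. -/
noncomputable def Tstar (n : ℕ) : ENNReal :=
  ⨆ (L : ℝ) (U : ℝ) (p : Fin n → ℝ) (x : Fin n → Bool) (σ : Strategy n)
    (_ : 0 < L ∧ L ≤ U ∧ (∀ i, L ≤ p i ∧ p i ≤ U) ∧ Valid L U σ), expT U σ ⟨x, p⟩

/-! ### Expectations with respect to the mutation -/

section Moments

variable {n : ℕ} (x : Fin n → Bool)

/-- indicator of a flip -/
noncomputable def ind (y : Fin n → Bool) (i : Fin n) : ℝ := if y i = x i then 0 else 1

/-- expectation over the offspring -/
noncomputable def ex (f : (Fin n → Bool) → ℝ) : ℝ := ∑ y, mutProb x y * f y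

variable {x}

lemma q_le_one (hn : 0 < n) : 1 / (n : ℝ) ≤ 1 := by
  have : (1 : ℝ) ≤ n := by exact_mod_cast hn
  rw [div_le_one (by linarith)]; exact this

lemma mutProb_nonneg (hn : 0 < n) (x y : Fin n → Bool) : 0 ≤ mutProb x y := by
  unfold mutProb
  apply prod_nonneg
  intro i _
  have h1 := q_le_one hn
  have h2 : (0 : ℝ) ≤ 1 / n := by positivity
  split_ifs <;> linarith

lemma ex_prod (I : Finset (Fin n)) :
    ex x (fun y => ∏ i ∈ I, ind x y i) = (1 / (n : ℝ)) ^ I.card := by
  classical
  unfold ex mutProb
  have h1 : ∀ y : Fin n → Bool, (∏ i, if y i = x i then 1 - 1 / (n : ℝ) else 1 / (n : ℝ)) *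
      ∏ i ∈ I, ind x y i = ∏ i, ((if y i = x i then 1 - 1 / (n : ℝ) else 1 / (n : ℝ)) *
        (if i ∈ I then (if y i = x i then 0 else 1) else 1)) := by
    intro y
    rw [prod_mul_distrib]
    congr 1
    rw [← Finset.prod_filter]
    simp only [ind, Finset.filter_mem_eq_inter, Finset.univ_inter]
  rw [sum_congr rfl (fun y _ => h1 y)]
  have h2 := Finset.prod_univ_sum (fun _ : Fin n => (univ : Finset Bool))
    (fun i b => ((if b = x i then 1 - 1 / (n : ℝ) else 1 / (n : ℝ)) *
        (if i ∈ I then (if b = x i then (0 : ℝ) else 1) else 1)))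
  rw [Fintype.piFinset_univ] at h2
  rw [← h2]
  have h3 : ∀ i, ∑ b : Bool, ((if b = x i then 1 - 1 / (n : ℝ) else 1 / (n : ℝ)) *
        (if i ∈ I then (if b = x i then (0 : ℝ) else 1) else 1)) =
      if i ∈ I then 1 / (n : ℝ) else 1 := by
    intro i
    by_cases hi : i ∈ I
    · simp only [if_pos hi]
      cases hx : x i <;> simp
    · simp only [if_neg hi]
      cases hx : x i <;> simp
  rw [prod_congr rfl (fun i _ => h3 i), ← Finset.prod_filter]
  simp

lemma ex_add (f g : (Fin n → Bool) → ℝ) :
    ex x (fun y => f y + g y) = ex x f + ex x g := by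
  unfold ex; rw [← sum_add_distrib]; exact sum_congr rfl fun y _ => by ring

lemma ex_smul (c : ℝ) (f : (Fin n → Bool) → ℝ) : ex x (fun y => c * f y) = c * ex x f := by
  unfold ex; rw [mul_sum]; exact sum_congr rfl fun y _ => by ring

lemma ex_sum {ι : Type*} (s : Finset ι) (f : ι → (Fin n → Bool) → ℝ) :
    ex x (fun y => ∑ i ∈ s, f i y) = ∑ i ∈ s, ex x (f i) := by
  unfold ex
  rw [sum_comm]
  exact sum_congr rfl fun y _ => by rw [mul_sum]

lemma ex_mono (hn : 0 < n) {f g : (Fin n → Bool) → ℝ} (h : ∀ y, f y ≤ g y) :
    ex x f ≤ ex x g := by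
  unfold ex
  exact sum_le_sum fun y _ => mul_le_mul_of_nonneg_left (h y) (mutProb_nonneg hn x y)

lemma ex_const (c : ℝ) : ex x (fun _ => c) = c := by
  have h := ex_prod (x := x) (∅ : Finset (Fin n))
  simp only [prod_empty, card_empty, pow_zero] at h
  have h2 := ex_smul (x := x) c (fun _ => (1 : ℝ))
  rw [h] at h2
  simpa using h2

lemma ind_nonneg (y : Fin n → Bool) (i : Fin n) : 0 ≤ ind x y i := by
  unfold ind; split_ifs <;> norm_num

lemma ind_le_one (y : Fin n → Bool) (i : Fin n) : ind x y i ≤ 1 := by
  unfold ind; split_ifs <;> norm_num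

lemma ind_sq (y : Fin n → Bool) (i : Fin n) : ind x y i * ind x y i = ind x y i := by
  unfold ind; split_ifs <;> norm_num

lemma ex_ind (i : Fin n) : ex x (fun y => ind x y i) = 1 / (n : ℝ) := by
  have h := ex_prod (x := x) {i}
  simpa using h

lemma ex_ind2 {i j : Fin n} (hij : i ≠ j) :
    ex x (fun y => ind x y i * ind x y j) = (1 / (n : ℝ)) ^ 2 := by
  classical
  have h := ex_prod (x := x) {i, j}
  rw [card_pair hij] at h
  rw [← h]
  congr 1
  funext y
  rw [prod_pair hij]

lemma ex_ind3 {i j l : Fin n} (hij : i ≠ j) (hil : i ≠ l) (hjl : j ≠ l) :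
    ex x (fun y => ind x y i * ind x y j * ind x y l) = (1 / (n : ℝ)) ^ 3 := by
  classical
  have h := ex_prod (x := x) {i, j, l}
  have hc : ({i, j, l} : Finset (Fin n)).card = 3 := by
    rw [card_insert_of_notMem (by simp [hij, hil]), card_pair hjl]
  rw [hc] at h
  rw [← h]
  congr 1
  funext y
  rw [prod_insert (by simp [hij, hil]), prod_pair hjl, mul_assoc]

/-- delta function -/
noncomputable def dl (i j : Fin n) : ℝ := if i = j then 1 else 0

lemma dl_nonneg (i j : Fin n) : 0 ≤ dl i j := by unfold dl; split_ifs <;> norm_num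

lemma ex_ind2_le (hn : 0 < n) (i j : Fin n) :
    ex x (fun y => ind x y i * ind x y j) ≤ (1 / (n : ℝ)) * (1 / (n : ℝ) + dl i j) := by
  have hq : (0 : ℝ) ≤ 1 / n := by positivity
  by_cases hij : i = j
  · subst hij
    have : (fun y => ind x y i * ind x y i) = fun y => ind x y i := funext fun y => ind_sq y i
    rw [this, ex_ind]
    simp only [dl, if_true]
    nlinarith
  · rw [ex_ind2 hij]
    simp only [dl, if_neg hij]
    nlinarith

lemma ex_ind3_le (hn : 0 < n) (i j l : Fin n) :
    ex x (fun y => ind x y i * ind x y j * ind x y l) ≤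
      (1 / (n : ℝ)) * (1 / (n : ℝ) + dl i j) * (1 / (n : ℝ) + dl i l + dl j l) := by
  have hq : (0 : ℝ) ≤ 1 / n := by positivity
  have hq1 := q_le_one hn
  set q : ℝ := 1 / (n : ℝ) with hqd
  have hsum : 0 ≤ dl i l + dl j l := add_nonneg (dl_nonneg _ _) (dl_nonneg _ _)
  by_cases hl : i = l ∨ j = l
  · -- `l` is not new
    have h1 : 1 ≤ dl i l + dl j l := by
      rcases hl with h | h
      · have : dl i l = 1 := by simp [dl, h]
        have := dl_nonneg j l
        linarith
      · have : dl j l = 1 := by simp [dl, h]
        have := dl_nonneg i l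
        linarith
    have h2 : ex x (fun y => ind x y i * ind x y j * ind x y l) ≤
        ex x (fun y => ind x y i * ind x y j) := by
      apply ex_mono hn
      intro y
      have a1 := ind_le_one (x := x) y l
      have a2 := mul_nonneg (ind_nonneg (x := x) y i) (ind_nonneg (x := x) y j)
      nlinarith
    have h3 := ex_ind2_le (x := x) hn i j
    have h4 : 0 ≤ q * (q + dl i j) := mul_nonneg hq (add_nonneg hq (dl_nonneg _ _))
    have h5 : q * (q + dl i j) * 1 ≤ q * (q + dl i j) * (q + dl i l + dl j l) :=
      mul_le_mul_of_nonneg_left (by linarith) h4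
    linarith
  · push Not at hl
    by_cases hij : i = j
    · subst hij
      have : (fun y => ind x y i * ind x y i * ind x y l) = fun y => ind x y i * ind x y l :=
        funext fun y => by rw [ind_sq]
      rw [this, ex_ind2 hl.1]
      have h6 : dl i i = 1 := by simp [dl]
      rw [h6]
      have h7 : q ^ 2 ≤ q * (q + 1) * q := by nlinarith [mul_nonneg hq hq, mul_nonneg (mul_nonneg hq hq) hq]
      have h8 : q * (q + 1) * q ≤ q * (q + 1) * (q + dl i l + dl i l) :=
        mul_le_mul_of_nonneg_left (by linarith) (by positivity)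
      linarith
    · rw [ex_ind3 hij hl.1 hl.2]
      have h6 : dl i j = 0 := by simp [dl, hij]
      rw [h6, add_zero]
      have h8 : q * q * q ≤ q * q * (q + dl i l + dl j l) :=
        mul_le_mul_of_nonneg_left (by linarith) (by positivity)
      nlinarith

end Moments

end Q331.EA
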