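import Pool.Agent.Q331.EA.Expect

/-!
# The potential and its one-step change
-/

namespace Q331.EA

open Finset

section

variable {n : ℕ}

/-- The quadratic potential: `Z` is the number of jobs on machine `false`, `Q` the number of jobs
that are not yet in the state the adversary wants. -/
noncomputable def Hq (m : ℝ) (p : Fin n → ℝ) (x : Fin n → Bool) : ℝ :=
  (((ca p x : ℝ) + cb p x) - m) ^ 2 + ((cb p x : ℝ) + cc p x) ^ 2

open Classical in
/-- The truncated potential. -/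
noncomputable def Ht (m : ℝ) (p : Fin n → ℝ) (x : Fin n → Bool) : ℝ :=
  if 2 ≤ ca p x - cc p x then min ((m - 1) ^ 2 / 2) (Hq m p x) else (m - 1) ^ 2 / 2

lemma Ht_le {m : ℝ} (hm : 1 ≤ m) (p : Fin n → ℝ) (x : Fin n → Bool) : Ht m p x ≤ Hq m p x := by
  unfold Ht
  split_ifs with h
  · exact min_le_right _ _
  · push Not at h
    have h1 : ca p x - cc p x ≤ 1 := by omega
    have h2 : (ca p x : ℝ) - cc p x ≤ 1 := by exact_mod_cast h1
    unfold Hq
    set Q : ℝ := (cb p x : ℝ) + cc p x with hQ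
    have e : (ca p x : ℝ) + cb p x = (ca p x - cc p x) + Q := by rw [hQ]; ring
    rw [e]
    set u : ℝ := m - (ca p x - cc p x) with hu
    have h3 : m - 1 ≤ u := by rw [hu]; linarith
    have e2 : ((ca p x : ℝ) - cc p x) + Q - m = -(u - Q) := by rw [hu]; ring
    rw [e2]
    have h4 : (m - 1) ^ 2 ≤ u ^ 2 := by nlinarith
    nlinarith [sq_nonneg (u - 2 * Q)]

lemma Ht_le_B (m : ℝ) (p : Fin n → ℝ) (x : Fin n → Bool) : Ht m p x ≤ (m - 1) ^ 2 / 2 := by
  unfold Ht
  split_ifs
  · exact min_le_left _ _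
  · exact le_refl _

/-- The pointwise inequality. -/
lemma pointwise {p : Fin n → ℝ} {x : Fin n → Bool} {δ m : ℝ} (hm : 1 ≤ m)
    (hp : ∀ i, p i = 1 ∨ p i = δ) (hδ0 : 0 < δ) (hδ : δ * n ≤ 1 / 2)
    (hn : 0 < n) (hD : 2 ≤ ca p x - cc p x) (hZ : (ca p x : ℝ) + cb p x ≤ 2 * m)
    (y : Fin n → Bool) :
    Ht m p (select p x y) ≤ Hq m p x +
      (2 * (((ca p x : ℝ) + cb p x) - m) * (ka p x y * ke p x y - ka p x y) +
      2 * m * ((PP (ka p x y) (kb p x y) (kc p x y) (ke p x y) : ℤ) : ℝ) +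
      (ka p x y * (2 * (∑ l, ind x y l) ^ 2 +
        2 * ((cb p x : ℝ) + cc p x) * ∑ l, ind x y l) + 2 * (kb p x y : ℝ) ^ 2)) := by
  classical
  set a := ka p x y with ha
  set b := kb p x y with hb
  set c := kc p x y with hc
  set e := ke p x y with he
  have a0 : 0 ≤ a := ka_nonneg p x y
  have b0 : 0 ≤ b := kb_nonneg p x y
  have c0 : 0 ≤ c := kc_nonneg p x y
  have e0 : 0 ≤ e := ke_nonneg p x y
  have ra : (0 : ℝ) ≤ a := by exact_mod_cast a0
  have rb : (0 : ℝ) ≤ b := by exact_mod_cast b0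
  have rc : (0 : ℝ) ≤ c := by exact_mod_cast c0
  have re : (0 : ℝ) ≤ e := by exact_mod_cast e0
  have hK : ∑ l, ind x y l = (a : ℝ) + b + c + e := (kk_eq y).symm
  rw [hK]
  set Z : ℝ := (ca p x : ℝ) + cb p x with hZd
  set Q : ℝ := (cb p x : ℝ) + cc p x with hQd
  have Q0 : 0 ≤ Q := by
    have h1 := cb_nonneg p x
    have h2 := cc_nonneg p x
    have : (0 : ℝ) ≤ ((cb p x + cc p x : ℤ) : ℝ) := by exact_mod_cast (add_nonneg h1 h2)
    push_cast at this
    exact this
  have Z0 : 0 ≤ Z := by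
    have h1 := cb_nonneg p x
    have h2 := ca_nonneg p x
    have : (0 : ℝ) ≤ ((ca p x + cb p x : ℤ) : ℝ) := by exact_mod_cast (add_nonneg h2 h1)
    push_cast at this
    exact this
  have hZm : |Z - m| ≤ m := by rw [abs_le]; constructor <;> linarith
  have hS0 : 0 ≤ (a : ℝ) * (2 * ((a : ℝ) + b + c + e) ^ 2 + 2 * Q * ((a : ℝ) + b + c + e)) +
      2 * (b : ℝ) ^ 2 := by positivity
  by_cases hacc : makespan p y ≤ makespan p x
  · have hsel : select p x y = y := by unfold select; rw [if_pos hacc]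
    rw [hsel]
    have hfacts := acc_facts hp hδ0 hδ hn hD hacc
    rw [← ha, ← hb, ← hc, ← he] at hfacts
    have h1 := int_acc a0 b0 c0 e0 hfacts
    have h2 : |((-a - b + c + e) - (a * e - a) : ℝ)| ≤ ((PP a b c e : ℤ) : ℝ) := by
      have h3 : ((|(-a - b + c + e) - a * (e - 1)| : ℤ) : ℝ) ≤ ((PP a b c e : ℤ) : ℝ) := by
        exact_mod_cast h1
      rw [Int.cast_abs] at h3
      push_cast at h3
      have e1 : ((-a - b + c + e) - (a * e - a) : ℝ) = (-a - b + c + e) - a * (e - 1) := by ring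
      rw [e1]
      exact_mod_cast h3
    refine (Ht_le hm p y).trans ?_
    unfold Hq
    rw [ca_new p x y, cb_new p x y, cc_new p x y, ← ha, ← hb, ← hc, ← he]
    push_cast
    have e2 : ((ca p x : ℝ) - a + c + ((cb p x : ℝ) - b + e) - m) = (Z - m) + (-a - b + c + e) := by
      rw [hZd]; ring
    have e3 : ((cb p x : ℝ) - b + e + ((cc p x : ℝ) + a - c)) = Q + (a + e - b - c) := by
      rw [hQd]; ring
    rw [e2, e3]
    -- first order term
    have f1 : 2 * (Z - m) * (-a - b + c + e) ≤ 2 * (Z - m) * (a * e - a) +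
        2 * m * ((PP a b c e : ℤ) : ℝ) := by
      have g1 : (Z - m) * ((-a - b + c + e) - (a * e - a)) ≤
          |Z - m| * |((-a - b + c + e) - (a * e - a) : ℝ)| := by
        rw [← abs_mul]; exact le_abs_self _
      have g2 : |Z - m| * |((-a - b + c + e) - (a * e - a) : ℝ)| ≤ m * ((PP a b c e : ℤ) : ℝ) :=
        mul_le_mul hZm h2 (abs_nonneg _) (by linarith)
      have g3 : 2 * (Z - m) * (-a - b + c + e) = 2 * (Z - m) * (a * e - a) +
          2 * ((Z - m) * ((-a - b + c + e) - (a * e - a))) := by ring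
      rw [g3]
      linarith
    -- second order terms
    have f2 : ((-a - b + c + e : ℝ)) ^ 2 + 2 * Q * (a + e - b - c) + (a + e - b - c) ^ 2 ≤
        a * (2 * ((a : ℝ) + b + c + e) ^ 2 + 2 * Q * ((a : ℝ) + b + c + e)) + 2 * (b : ℝ) ^ 2 := by
      rcases eq_or_lt_of_le a0 with h0 | h0
      · have a00 : a = 0 := h0.symm
        have hfc : c = 0 ∧ e ≤ b := by
          rcases hfacts with h | ⟨h, h'⟩
          · omega
          · exact ⟨by omega, h'⟩
        have hc0 : (c : ℝ) = 0 := by exact_mod_cast hfc.1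
        have ha0 : (a : ℝ) = 0 := by exact_mod_cast a00
        have heb : (e : ℝ) ≤ b := by exact_mod_cast hfc.2
        rw [hc0, ha0]
        have g1 : (e - b : ℝ) ^ 2 ≤ (b : ℝ) ^ 2 := by nlinarith
        have g2 : Q * (e - b) ≤ 0 := mul_nonpos_of_nonneg_of_nonpos Q0 (by linarith)
        have g3 : (-0 - (b : ℝ) + 0 + e) ^ 2 + 2 * Q * (0 + e - b - 0) + (0 + e - b - 0) ^ 2 =
            2 * (e - b : ℝ) ^ 2 + 2 * (Q * (e - b)) := by ring
        rw [g3]
        linarith
      · have a1 : (1 : ℝ) ≤ a := by exact_mod_cast h0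
        set K : ℝ := (a : ℝ) + b + c + e with hKd
        have K0 : 0 ≤ K := by rw [hKd]; linarith
        have g1 : ((-a - b + c + e : ℝ)) ^ 2 ≤ K ^ 2 := by
          apply sq_le_sq'
          · rw [hKd]; linarith
          · rw [hKd]; linarith
        have g2 : ((a + e - b - c : ℝ)) ^ 2 ≤ K ^ 2 := by
          apply sq_le_sq'
          · rw [hKd]; linarith
          · rw [hKd]; linarith
        have g3 : Q * (a + e - b - c) ≤ Q * K :=
          mul_le_mul_of_nonneg_left (by rw [hKd]; linarith) Q0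
        have g4 : 2 * K ^ 2 + 2 * Q * K ≤ a * (2 * K ^ 2 + 2 * Q * K) := by
          have : 0 ≤ 2 * K ^ 2 + 2 * Q * K := by positivity
          nlinarith
        have g5 : 0 ≤ 2 * (b : ℝ) ^ 2 := by positivity
        have g6 : 2 * Q * (a + e - b - c) = 2 * (Q * (a + e - b - c)) := by ring
        rw [g6]
        linarith
    have f3 : ((Z - m) + (-a - b + c + e)) ^ 2 + (Q + (a + e - b - c)) ^ 2 =
        ((Z - m) ^ 2 + Q ^ 2) + 2 * (Z - m) * (-a - b + c + e) +
        (((-a - b + c + e : ℝ)) ^ 2 + 2 * Q * (a + e - b - c) + (a + e - b - c) ^ 2) := by ring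
    rw [f3]
    linarith
  · have hsel : select p x y = x := by unfold select; rw [if_neg hacc]
    rw [hsel]
    have hno : ¬ (a = 1 ∧ b = 0 ∧ c = 0) := by
      rintro ⟨g1, g2, g3⟩
      exact hacc (acc_main hp hδ0 hδ hn hD g1 g2 g3)
    have h1 := int_rej a0 b0 c0 e0 hno
    have h2 : |((a * e - a) : ℝ)| ≤ ((PP a b c e : ℤ) : ℝ) := by
      have h3 : ((|a * (e - 1)| : ℤ) : ℝ) ≤ ((PP a b c e : ℤ) : ℝ) := by exact_mod_cast h1
      rw [Int.cast_abs] at h3
      push_cast at h3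
      have e1 : ((a * e - a) : ℝ) = a * (e - 1) := by ring
      rw [e1]
      exact_mod_cast h3
    refine (Ht_le hm p x).trans ?_
    have g1 : -((Z - m) * (a * e - a)) ≤ |Z - m| * |((a * e - a) : ℝ)| := by
      rw [← abs_mul]; exact neg_le_abs _
    have g2 : |Z - m| * |((a * e - a) : ℝ)| ≤ m * ((PP a b c e : ℤ) : ℝ) :=
      mul_le_mul hZm h2 (abs_nonneg _) (by linarith)
    have g3 : 2 * (Z - m) * (a * e - a) = 2 * ((Z - m) * (a * e - a)) := by ring
    rw [g3]
    linarith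

/-- The expected potential after one mutation and selection step. -/
lemma ex_step {p : Fin n → ℝ} {x : Fin n → Bool} {δ m : ℝ} (hm : 16 ≤ m) (hmn : m ^ 2 ≤ n)
    (hp : ∀ i, p i = 1 ∨ p i = δ) (hδ0 : 0 < δ) (hδ : δ * n ≤ 1 / 2)
    (hn : 0 < n) (hD : 2 ≤ ca p x - cc p x) (hZ : (ca p x : ℝ) + cb p x ≤ 2 * m) :
    ex x (fun y => Ht m p (select p x y)) ≤ Hq m p x + 64 * m / n + ((cb p x : ℝ) + cc p x) := by
  classical
  have hn' : (0 : ℝ) < n := by exact_mod_cast hn
  set A : ℝ := (ca p x : ℝ) with hA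
  set B : ℝ := (cb p x : ℝ) with hB
  set C : ℝ := (cc p x : ℝ) with hC
  set E : ℝ := (ce p x : ℝ) with hE
  have A0 : 0 ≤ A := by rw [hA]; exact_mod_cast ca_nonneg p x
  have B0 : 0 ≤ B := by rw [hB]; exact_mod_cast cb_nonneg p x
  have C0 : 0 ≤ C := by rw [hC]; exact_mod_cast cc_nonneg p x
  have hsum : A + B + C + E = n := by
    have := c_total p x
    have h2 : ((ca p x + cb p x + cc p x + ce p x : ℤ) : ℝ) = n := by exact_mod_cast this
    push_cast at h2
    exact h2
  have hQ0 : 0 ≤ B + C := by linarith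
  have h1 := ex_mono (x := x) hn (pointwise (p := p) (x := x) (by linarith : (1 : ℝ) ≤ m) hp hδ0 hδ
    hn hD hZ)
  refine h1.trans ?_
  rw [ex_add, ex_const, ex_add, ex_add, ex_smul, ex_smul]
  have e1 : ex x (fun y => (ka p x y : ℝ) * ke p x y - ka p x y) =
      A * E * (1 / (n : ℝ)) ^ 2 - A * (1 / (n : ℝ)) := by
    have : (fun y => (ka p x y : ℝ) * ke p x y - ka p x y) =
        fun y => (ka p x y : ℝ) * ke p x y + (-1) * (ka p x y : ℝ) := by funext y; ring
    rw [this, ex_add, ex_smul, ex_kake, ex_ka]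
    ring
  rw [e1]
  have e2 := ex_PP (p := p) (x := x) hn
  have e3 : ex x (fun y => (ka p x y : ℝ) * (2 * (∑ l, ind x y l) ^ 2 +
        2 * (B + C) * ∑ l, ind x y l) + 2 * (kb p x y : ℝ) ^ 2) ≤
      A * (12 + 4 * (B + C)) * (1 / (n : ℝ)) + 2 * (2 * B * (1 / (n : ℝ))) := by
    rw [ex_add, ex_smul]
    have g1 := ex_S (p := p) (x := x) hn hQ0
    have g2 := ex_kb2 (p := p) (x := x) hn
    linarith
  have e4 : A * E * (1 / (n : ℝ)) ^ 2 - A * (1 / (n : ℝ)) = -(A * (A + B + C) / n ^ 2) := by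
    have : E = n - (A + B + C) := by linarith
    rw [this]
    field_simp
    ring
  rw [e4]
  have hAm : A ≤ 2 * m := by linarith
  have hABC : A + B + C ≤ 2 * m + (B + C) := by linarith
  have hm0 : 0 ≤ m := by linarith
  -- first term
  have t1 : 2 * (A + B - m) * -(A * (A + B + C) / n ^ 2) ≤
      2 * m * (A * (A + B + C) / n ^ 2) := by
    have h0 : 0 ≤ A * (A + B + C) / (n : ℝ) ^ 2 := by positivity
    have h1 : 2 * (A + B - m) * -(A * (A + B + C) / n ^ 2) =
        2 * m * (A * (A + B + C) / n ^ 2) - 2 * (A + B) * (A * (A + B + C) / n ^ 2) := by ring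
    rw [h1]
    have h2 : 0 ≤ 2 * (A + B) * (A * (A + B + C) / n ^ 2) :=
      mul_nonneg (by linarith) h0
    linarith
  have t2 : A * (A + B + C) ≤ 2 * m * (2 * m + (B + C)) :=
    mul_le_mul hAm hABC (by linarith) (by linarith)
  have t3 : A * (A + B + C) / (n : ℝ) ^ 2 ≤ (4 * n + 2 * m * (B + C)) / n ^ 2 := by
    apply div_le_div_of_nonneg_right _ (by positivity)
    have h0 : 2 * m * (2 * m + (B + C)) = 4 * m ^ 2 + 2 * m * (B + C) := by ring
    linarith
  have t4 : 2 * m * ((4 * n + 2 * m * (B + C)) / (n : ℝ) ^ 2) ≤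
      8 * m / n + 4 * (B + C) / n := by
    have : 8 * m / n + 4 * (B + C) / n - 2 * m * ((4 * n + 2 * m * (B + C)) / (n : ℝ) ^ 2) =
        4 * (B + C) * (n - m ^ 2) / n ^ 2 := by field_simp; ring
    have h0 : 0 ≤ 4 * (B + C) * (n - m ^ 2) / (n : ℝ) ^ 2 := by
      apply div_nonneg _ (by positivity)
      apply mul_nonneg (by linarith) (by linarith)
    linarith
  have t5 : 2 * m * (A * (A + B + C) / (n : ℝ) ^ 2) ≤ 8 * m / n + 4 * (B + C) / n :=
    (mul_le_mul_of_nonneg_left t3 (by linarith)).trans t4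
  -- error polynomial
  have u1 : 2 * m * ex x (fun y => ((PP (ka p x y) (kb p x y) (kc p x y) (ke p x y) : ℤ) : ℝ)) ≤
      2 * m * ((B + C) * (1 / (n : ℝ)) + 4 * (A * (A + B + C) / n ^ 2)) := by
    apply mul_le_mul_of_nonneg_left _ (by linarith)
    refine e2.trans ?_
    have h0 : (0 : ℝ) ≤ 1 / n := by positivity
    have h1 : B * (1 / (n : ℝ)) ≤ (B + C) * (1 / (n : ℝ)) :=
      mul_le_mul_of_nonneg_right (by linarith) h0
    have h2 : 4 * (A * (A + (B + C))) * (1 / (n : ℝ)) ^ 2 = 4 * (A * (A + B + C) / n ^ 2) := by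
      field_simp; ring
    linarith
  have u2 : 2 * m * ((B + C) * (1 / (n : ℝ)) + 4 * (A * (A + B + C) / n ^ 2)) ≤
      2 * m * (B + C) / n + 4 * (8 * m / n + 4 * (B + C) / n) := by
    have h1 : 2 * m * ((B + C) * (1 / (n : ℝ)) + 4 * (A * (A + B + C) / n ^ 2)) =
        2 * m * (B + C) / n + 4 * (2 * m * (A * (A + B + C) / n ^ 2)) := by ring
    rw [h1]; linarith
  -- second order terms
  have v1 : A * (12 + 4 * (B + C)) * (1 / (n : ℝ)) + 2 * (2 * B * (1 / (n : ℝ))) ≤
      (24 * m + 8 * m * (B + C)) / n + 4 * (B + C) / n := by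
    have h1 : A * (12 + 4 * (B + C)) ≤ 2 * m * (12 + 4 * (B + C)) :=
      mul_le_mul_of_nonneg_right hAm (by linarith)
    have h2 : A * (12 + 4 * (B + C)) * (1 / (n : ℝ)) ≤ (24 * m + 8 * m * (B + C)) / n := by
      rw [mul_one_div]
      apply div_le_div_of_nonneg_right _ hn'.le
      linarith
    have h3 : 2 * (2 * B * (1 / (n : ℝ))) ≤ 4 * (B + C) / n := by
      have : 2 * (2 * B * (1 / (n : ℝ))) = 4 * B / n := by ring
      rw [this]
      apply div_le_div_of_nonneg_right _ hn'.le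
      linarith
    linarith
  -- all `Q`-terms
  have w1 : (24 + 10 * m) * (B + C) / n ≤ B + C := by
    rw [div_le_iff₀ hn']
    have h1 : (24 + 10 * m) ≤ m ^ 2 := by nlinarith
    have h2 : (24 + 10 * m) * (B + C) ≤ n * (B + C) :=
      mul_le_mul_of_nonneg_right (h1.trans hmn) hQ0
    linarith
  have w2 : 8 * m / n + 4 * (B + C) / n + (2 * m * (B + C) / n +
      4 * (8 * m / n + 4 * (B + C) / n)) + ((24 * m + 8 * m * (B + C)) / n + 4 * (B + C) / n) =
      64 * m / n + (24 + 10 * m) * (B + C) / n := by ring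
  linarith

end

end Q331.EA
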